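import Mathlib

/-!
# A coefficientwise inequality between two q-series

For every positive integer `L`,
`1/(q;q^2)_L * ((1-q^(2L-2))/(1-q^2) + q^3 [L-2,2]_{q^2}) - q [L-2,2]_q (-q^3;q)_{L-4}`
has non-negative coefficients.
-/

open Finset PowerSeries

namespace Pool.Agent.Results.MP_acbfbf_co.CoefficientwiseInequality

/-- `(q^s; q^s)_n = ∏_{k=1}^n (1 - q^(s k))`. -/
noncomputable def qfac (s n : ℕ) : PowerSeries ℚ :=
  ∏ k ∈ range n, (1 - (X : PowerSeries ℚ) ^ (s * (k + 1)))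

/-- The Gaussian binomial coefficient `[n, m]` in base `q^s`; it is `0` unless `0 ≤ m ≤ n`. -/
noncomputable def gauss (s : ℕ) (n m : ℤ) : PowerSeries ℚ :=
  if 0 ≤ m ∧ m ≤ n then
    qfac s n.toNat * (qfac s m.toNat * qfac s (n - m).toNat)⁻¹
  else 0

/-- The left-hand side. -/
noncomputable def lhs (L : ℕ) : PowerSeries ℚ :=
  (∏ k ∈ range L, (1 - (X : PowerSeries ℚ) ^ (2 * k + 1)))⁻¹ *
    ((1 - X ^ (2 * L - 2)) * (1 - X ^ 2)⁻¹ + X ^ 3 * gauss 2 ((L : ℤ) - 2) 2)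

/-- The right-hand side. -/
noncomputable def rhs (L : ℕ) : PowerSeries ℚ :=
  X * gauss 1 ((L : ℤ) - 2) 2 * ∏ k ∈ range (L - 4), (1 + (X : PowerSeries ℚ) ^ (3 + k))

/-- all coefficients are non-negative -/
def NN (f : PowerSeries ℚ) : Prop := ∀ n, 0 ≤ coeff n f

lemma NN.add {f g : PowerSeries ℚ} (hf : NN f) (hg : NN g) : NN (f + g) := fun n => by
  rw [map_add]; exact add_nonneg (hf n) (hg n)

lemma NN.mul {f g : PowerSeries ℚ} (hf : NN f) (hg : NN g) : NN (f * g) := fun n => by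
  rw [coeff_mul]
  exact Finset.sum_nonneg (fun p _ => mul_nonneg (hf _) (hg _))

lemma NN_X_pow (k : ℕ) : NN ((X : PowerSeries ℚ) ^ k) := fun n => by
  rw [coeff_X_pow]; split_ifs <;> norm_num

lemma NN_one : NN (1 : PowerSeries ℚ) := by simpa using NN_X_pow 0

lemma NN_zero : NN (0 : PowerSeries ℚ) := fun n => by simp

lemma NN_prod {ι : Type*} (s : Finset ι) (f : ι → PowerSeries ℚ) (h : ∀ i ∈ s, NN (f i)) :
    NN (∏ i ∈ s, f i) := by
  classical
  induction s using Finset.induction_on with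
  | empty => simpa using NN_one
  | insert a s ha ih =>
    rw [Finset.prod_insert ha]
    exact (h a (by simp)).mul (ih (fun i hi => h i (by simp [hi])))

lemma NN_sum {ι : Type*} (s : Finset ι) (f : ι → PowerSeries ℚ) (h : ∀ i ∈ s, NN (f i)) :
    NN (∑ i ∈ s, f i) := fun n => by
  rw [map_sum]
  exact Finset.sum_nonneg (fun i hi => h i hi n)

lemma const_ne (k : ℕ) (hk : 1 ≤ k) : constantCoeff (1 - (X : PowerSeries ℚ) ^ k) ≠ 0 := by
  have : k ≠ 0 := by omega
  simp [this]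

lemma inv_mul_self' (k : ℕ) (hk : 1 ≤ k) :
    (1 - (X : PowerSeries ℚ) ^ k)⁻¹ * (1 - X ^ k) = 1 :=
  PowerSeries.inv_mul_cancel _ (const_ne k hk)

lemma NN_inv (k : ℕ) (hk : 1 ≤ k) : NN ((1 - (X : PowerSeries ℚ) ^ k)⁻¹) := by
  set g := (1 - (X : PowerSeries ℚ) ^ k)⁻¹ with hg
  have h1 : g = 1 + X ^ k * g := by
    have := inv_mul_self' k hk
    rw [← hg] at this
    linear_combination this
  intro n
  induction n using Nat.strong_induction_on with
  | _ n ih =>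
    rw [h1, map_add, coeff_X_pow_mul']
    refine add_nonneg (NN_one n) ?_
    split_ifs with h
    · exact ih _ (by omega)
    · exact le_refl _

lemma geom (s N : ℕ) (hs : 1 ≤ s) :
    (1 - (X : PowerSeries ℚ) ^ (s * N)) * (1 - X ^ s)⁻¹ = ∑ i ∈ range N, X ^ (s * i) := by
  have h1 := mul_neg_geom_sum ((X : PowerSeries ℚ) ^ s) N
  have h2 := inv_mul_self' s hs
  simp_rw [← pow_mul] at h1
  rw [← h1, mul_comm (1 - X ^ s), mul_assoc, mul_comm (1 - X ^ s), h2, mul_one]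

lemma NN_geom (s N : ℕ) (hs : 1 ≤ s) :
    NN ((1 - (X : PowerSeries ℚ) ^ (s * N)) * (1 - X ^ s)⁻¹) := by
  rw [geom s N hs]
  exact NN_sum _ _ (fun i _ => NN_X_pow _)

lemma const_prod_ne (n : ℕ) (e : ℕ → ℕ) (he : ∀ k, 1 ≤ e k) :
    constantCoeff (∏ k ∈ range n, (1 - (X : PowerSeries ℚ) ^ (e k))) ≠ 0 := by
  rw [map_prod]
  exact Finset.prod_ne_zero_iff.2 (fun k _ => const_ne _ (he k))

lemma qfac_succ (s n : ℕ) : qfac s (n + 1) = qfac s n * (1 - X ^ (s * (n + 1))) := by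
  unfold qfac
  rw [Finset.prod_range_succ]

lemma qfac_const_ne (s n : ℕ) (hs : 1 ≤ s) : constantCoeff (qfac s n) ≠ 0 :=
  const_prod_ne n (fun k => s * (k + 1)) (fun k => Nat.mul_pos hs (by omega))

lemma gauss_two (s k : ℕ) (hs : 1 ≤ s) :
    gauss s ((k : ℤ) + 2) 2 =
      (1 - X ^ (s * (k + 1))) * (1 - X ^ (s * (k + 2))) * ((1 - X ^ s)⁻¹ * (1 - X ^ (s * 2))⁻¹) := by
  unfold gauss
  rw [if_pos (by constructor <;> omega)]
  have e1 : ((k : ℤ) + 2).toNat = k + 2 := by omega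
  have e2 : (2 : ℤ).toNat = 2 := rfl
  have e3 : ((k : ℤ) + 2 - 2).toNat = k := by omega
  rw [e1, e2, e3]
  have h0 : constantCoeff (qfac s 2 * qfac s k) ≠ 0 := by
    rw [map_mul]
    exact mul_ne_zero (qfac_const_ne s 2 hs) (qfac_const_ne s k hs)
  symm
  rw [PowerSeries.eq_mul_inv_iff_mul_eq h0]
  have h2 : qfac s 2 = (1 - X ^ s) * (1 - X ^ (s * 2)) := by
    unfold qfac
    rw [Finset.prod_range_succ, Finset.prod_range_succ, Finset.prod_range_zero]
    simp
  rw [h2, qfac_succ, qfac_succ]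
  have i1 := inv_mul_self' s hs
  have i2 := inv_mul_self' (s * 2) (by omega)
  calc (1 - X ^ (s * (k + 1))) * (1 - X ^ (s * (k + 2))) *
        ((1 - X ^ s)⁻¹ * (1 - X ^ (s * 2))⁻¹) * ((1 - X ^ s) * (1 - X ^ (s * 2)) * qfac s k)
      = (1 - X ^ (s * (k + 1))) * (1 - X ^ (s * (k + 2))) * qfac s k *
        ((((1 - X ^ s)⁻¹ * (1 - X ^ s))) * ((1 - X ^ (s * 2))⁻¹ * (1 - X ^ (s * 2)))) := by ring
    _ = _ := by rw [i1, i2]; ring

/-- `(q;q^2)_L (-q;q)_L = (q^(L+1);q)_L`. -/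
lemma euler_finite (L : ℕ) :
    (∏ k ∈ range L, (1 - (X : PowerSeries ℚ) ^ (2 * k + 1))) * ∏ k ∈ range L, (1 + X ^ (k + 1)) =
      ∏ k ∈ range L, (1 - X ^ (L + k + 1)) := by
  induction L with
  | zero => simp
  | succ L ih =>
    have h1 : (∏ k ∈ range (L + 1), (1 - (X : PowerSeries ℚ) ^ (L + 1 + k + 1))) * (1 - X ^ (L + 1)) =
        (∏ k ∈ range L, (1 - X ^ (L + k + 1))) * (1 - X ^ (2 * L + 1)) * (1 - X ^ (2 * L + 2)) := by
      have h2 := Finset.prod_range_succ' (fun k => 1 - (X : PowerSeries ℚ) ^ (L + k + 1)) (L + 1)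
      have h3 := Finset.prod_range_succ (fun k => 1 - (X : PowerSeries ℚ) ^ (L + k + 1)) (L + 1)
      rw [h2, Finset.prod_range_succ (fun k => 1 - (X : PowerSeries ℚ) ^ (L + k + 1)) L] at h3
      have e1 : ∀ k, L + (k + 1) + 1 = L + 1 + k + 1 := fun k => by ring
      simp_rw [e1] at h3
      have e2 : L + 0 + 1 = L + 1 := by ring
      have e3 : L + L + 1 = 2 * L + 1 := by ring
      have e4 : L + 1 + L + 1 = 2 * L + 2 := by ring
      rw [e2, e3, e4] at h3
      exact h3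
    have h5 : (1 - (X : PowerSeries ℚ) ^ (L + 1)) ≠ 0 := by
      intro h
      have := const_ne (L + 1) (by omega)
      rw [h] at this
      simp at this
    apply mul_right_cancel₀ h5
    rw [h1, ← ih, Finset.prod_range_succ, Finset.prod_range_succ]
    have h6 : (X : PowerSeries ℚ) ^ (2 * L + 2) = X ^ (L + 1) * X ^ (L + 1) := by
      rw [← pow_add]; congr 1; ring
    rw [h6]
    ring

lemma inv_odd (L : ℕ) :
    (∏ k ∈ range L, (1 - (X : PowerSeries ℚ) ^ (2 * k + 1)))⁻¹ =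
      (∏ k ∈ range L, (1 + X ^ (k + 1))) * ∏ k ∈ range L, (1 - X ^ (L + k + 1))⁻¹ := by
  have h0 := const_prod_ne L (fun k => 2 * k + 1) (fun k => by omega)
  symm
  rw [PowerSeries.eq_inv_iff_mul_eq_one h0]
  have h1 := euler_finite L
  have h2 : (∏ k ∈ range L, (1 - (X : PowerSeries ℚ) ^ (L + k + 1))⁻¹) *
      ∏ k ∈ range L, (1 - X ^ (L + k + 1)) = 1 := by
    rw [← Finset.prod_mul_distrib]
    exact Finset.prod_eq_one (fun k _ => inv_mul_self' _ (by omega))
  calc (∏ k ∈ range L, (1 + X ^ (k + 1))) * (∏ k ∈ range L, (1 - X ^ (L + k + 1))⁻¹) *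
        ∏ k ∈ range L, (1 - (X : PowerSeries ℚ) ^ (2 * k + 1))
      = (∏ k ∈ range L, (1 - X ^ (L + k + 1))⁻¹) *
        ((∏ k ∈ range L, (1 - (X : PowerSeries ℚ) ^ (2 * k + 1))) *
          ∏ k ∈ range L, (1 + X ^ (k + 1))) := by ring
    _ = 1 := by rw [h1, h2]

lemma NN_sub_one {f : PowerSeries ℚ} (hf : NN f) (h : coeff 0 f = 1) : NN (f - 1) := fun n => by
  rw [map_sub, coeff_one]
  split_ifs with h0
  · subst h0; rw [h]; norm_num
  · simpa using hf n

/-- the `q`-binomial `[k+2,2]_q`, its non-negativity and vanishing -/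
lemma G1_poly (k : ℕ) : ∃ p : Polynomial ℚ, p.natDegree ≤ 2 * k ∧
    (p : PowerSeries ℚ) = (1 - X ^ (k + 1)) * (1 - X ^ (k + 2)) *
      ((1 - X ^ 1)⁻¹ * (1 - X ^ 2)⁻¹) := by
  have key : ∀ a b : ℕ, ((((∑ i ∈ range a, (Polynomial.X : Polynomial ℚ) ^ (1 * i)) *
      ∑ i ∈ range b, (Polynomial.X : Polynomial ℚ) ^ (2 * i)) : Polynomial ℚ) : PowerSeries ℚ) =
      (1 - X ^ (1 * a)) * (1 - X ^ (2 * b)) * ((1 - X ^ 1)⁻¹ * (1 - X ^ 2)⁻¹) := by
    intro a b
    have h1 := geom 1 a (le_refl 1)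
    have h2 := geom 2 b (by norm_num)
    rw [Polynomial.coe_mul]
    have c1 : (((∑ i ∈ range a, (Polynomial.X : Polynomial ℚ) ^ (1 * i)) : Polynomial ℚ) :
        PowerSeries ℚ) = ∑ i ∈ range a, X ^ (1 * i) := by
      have := map_sum (Polynomial.coeToPowerSeries.ringHom (R := ℚ))
        (fun i => (Polynomial.X : Polynomial ℚ) ^ (1 * i)) (range a)
      simp only [Polynomial.coeToPowerSeries.ringHom_apply] at this
      rw [this]
      exact Finset.sum_congr rfl (fun i _ => by rw [Polynomial.coe_pow, Polynomial.coe_X])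
    have c2 : (((∑ i ∈ range b, (Polynomial.X : Polynomial ℚ) ^ (2 * i)) : Polynomial ℚ) :
        PowerSeries ℚ) = ∑ i ∈ range b, X ^ (2 * i) := by
      have := map_sum (Polynomial.coeToPowerSeries.ringHom (R := ℚ))
        (fun i => (Polynomial.X : Polynomial ℚ) ^ (2 * i)) (range b)
      simp only [Polynomial.coeToPowerSeries.ringHom_apply] at this
      rw [this]
      exact Finset.sum_congr rfl (fun i _ => by rw [Polynomial.coe_pow, Polynomial.coe_X])
    rw [c1, c2, ← h1, ← h2]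
    ring
  have deg : ∀ a b : ℕ, (((∑ i ∈ range a, (Polynomial.X : Polynomial ℚ) ^ (1 * i)) *
      ∑ i ∈ range b, (Polynomial.X : Polynomial ℚ) ^ (2 * i)) : Polynomial ℚ).natDegree ≤
      (a - 1) + 2 * (b - 1) := by
    intro a b
    refine (Polynomial.natDegree_mul_le).trans (add_le_add ?_ ?_)
    · apply Polynomial.natDegree_sum_le_of_forall_le
      intro i hi
      rw [Polynomial.natDegree_X_pow]
      have := Finset.mem_range.1 hi
      omega
    · apply Polynomial.natDegree_sum_le_of_forall_le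
      intro i hi
      rw [Polynomial.natDegree_X_pow]
      have := Finset.mem_range.1 hi
      omega
  rcases Nat.even_or_odd' k with ⟨e, he | he⟩
  · refine ⟨_, ?_, (key (k + 1) (e + 1)).trans ?_⟩
    · refine (deg (k + 1) (e + 1)).trans ?_
      omega
    · have e1 : 2 * (e + 1) = k + 2 := by omega
      rw [e1, one_mul]
  · refine ⟨_, ?_, (key (k + 2) (e + 1)).trans ?_⟩
    · refine (deg (k + 2) (e + 1)).trans ?_
      omega
    · have e1 : 2 * (e + 1) = k + 1 := by omega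
      rw [e1, one_mul]
      ring

lemma NN_G2 (k : ℕ) : NN ((1 - (X : PowerSeries ℚ) ^ (2 * (k + 1))) * (1 - X ^ (2 * (k + 2))) *
      ((1 - X ^ 2)⁻¹ * (1 - X ^ (2 * 2))⁻¹)) := by
  rcases Nat.even_or_odd' k with ⟨e, he | he⟩
  · have h1 := (NN_geom 2 (k + 1) (by norm_num)).mul (NN_geom 4 (e + 1) (by norm_num))
    have e1 : 4 * (e + 1) = 2 * (k + 2) := by omega
    rw [e1] at h1
    have e2 : (2 * 2 : ℕ) = 4 := rfl
    rw [e2]
    convert h1 using 1
    ring
  · have h1 := (NN_geom 2 (k + 2) (by norm_num)).mul (NN_geom 4 (e + 1) (by norm_num))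
    have e1 : 4 * (e + 1) = 2 * (k + 1) := by omega
    rw [e1] at h1
    have e2 : (2 * 2 : ℕ) = 4 := rfl
    rw [e2]
    convert h1 using 1
    ring

/-- The inner bracket. -/
lemma inner (k : ℕ) :
    NN ((1 + X) * (1 + X ^ 2) * ((1 - X ^ (2 * (k + 3))) * (1 - X ^ 2)⁻¹ + X ^ 3 *
      ((1 - (X : PowerSeries ℚ) ^ (2 * (k + 1))) * (1 - X ^ (2 * (k + 2))) *
      ((1 - X ^ 2)⁻¹ * (1 - X ^ (2 * 2))⁻¹))) -
      X * ((1 - X ^ (k + 1)) * (1 - X ^ (k + 2)) * ((1 - X ^ 1)⁻¹ * (1 - X ^ 2)⁻¹))) := by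
  obtain ⟨p, hp, hpe⟩ := G1_poly k
  intro t
  rcases le_or_gt (2 * k + 4) t with ht | ht
  · rw [← hpe, map_sub]
    have h1 : coeff t (X * (p : PowerSeries ℚ)) = 0 := by
      obtain ⟨t', rfl⟩ : ∃ t', t = t' + 1 := ⟨t - 1, by omega⟩
      rw [coeff_succ_X_mul, Polynomial.coeff_coe]
      exact Polynomial.coeff_eq_zero_of_natDegree_lt (by omega)
    rw [h1, sub_zero]
    refine NN.mul (NN.mul (NN_one.add ?_) (NN_one.add (NN_X_pow 2))) ?_ t
    · simpa using NN_X_pow 1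
    · exact (NN_geom 2 (k + 3) (by norm_num)).add ((NN_X_pow 3).mul (NN_G2 k))
  · set a := (1 - (X : PowerSeries ℚ) ^ 1)⁻¹ with ha
    set b := (1 - (X : PowerSeries ℚ) ^ 2)⁻¹ with hb
    set c := (1 - (X : PowerSeries ℚ) ^ (2 * 2))⁻¹ with hc
    have ha1 : a * (1 - X) = 1 := by
      have := inv_mul_self' 1 (le_refl 1)
      rw [← ha, pow_one] at this; exact this
    have hb1 : b * (1 - X ^ 2) = 1 := inv_mul_self' 2 (by norm_num)
    have hc1 : c * (1 - X ^ 4) = 1 := inv_mul_self' 4 (by norm_num)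
    have h1 : (1 + X) * b = a := by linear_combination a * hb1 - (1 + X) * b * ha1
    have h2 : (1 + X ^ 2) * c = b := by linear_combination b * hc1 - (1 + X ^ 2) * c * hb1
    have h3 : (1 + X) * (1 + X ^ 2) * ((1 - X ^ (2 * (k + 3))) * b + X ^ 3 *
      ((1 - (X : PowerSeries ℚ) ^ (2 * (k + 1))) * (1 - X ^ (2 * (k + 2))) * (b * c))) -
      X * ((1 - X ^ (k + 1)) * (1 - X ^ (k + 2)) * (a * b)) =
      ((1 + X ^ 3) * b + X ^ (k + 2) * ((1 + X) * (a * b))) +
        X ^ (2 * k + 4) * ((-(1 + X + X ^ 2 + X ^ 3) + X ^ 6 + X ^ (2 * k + 5)) * (a * b)) := by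
      have e1 : (1 + X) * (1 + X ^ 2) * ((1 - X ^ (2 * (k + 3))) * b + X ^ 3 *
        ((1 - (X : PowerSeries ℚ) ^ (2 * (k + 1))) * (1 - X ^ (2 * (k + 2))) * (b * c))) =
        (1 + X ^ 2) * (1 - X ^ (2 * (k + 3))) * ((1 + X) * b) + X ^ 3 *
        ((1 - (X : PowerSeries ℚ) ^ (2 * (k + 1))) * (1 - X ^ (2 * (k + 2))) *
          (((1 + X) * b) * ((1 + X ^ 2) * c))) := by ring
      have e2 : (1 + X ^ 2) * (1 - X ^ (2 * (k + 3))) * a =
          (1 - X ^ 4) * (1 - X ^ (2 * (k + 3))) * (a * b) := by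
        linear_combination (-(1 + X ^ 2) * (1 - X ^ (2 * (k + 3))) * a) * hb1
      have e3 : (1 + X ^ 3) * b = (1 + X ^ 3) * (1 - X) * (a * b) := by
        linear_combination (-(1 + X ^ 3) * b) * ha1
      rw [e1, h1, h2, e2, e3]
      ring
    rw [h3, map_add, map_add, coeff_X_pow_mul' _ (2 * k + 4), if_neg (by omega), add_zero]
    refine add_nonneg ?_ ?_
    · exact ((NN_one.add (NN_X_pow 3)).mul (NN_inv 2 (by norm_num))) t
    · refine ((NN_X_pow (k + 2)).mul (NN.mul (NN_one.add ?_)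
        ((NN_inv 1 (le_refl 1)).mul (NN_inv 2 (by norm_num))))) t
      simpa using NN_X_pow 1

lemma NN_inv_odd (L : ℕ) : NN ((∏ k ∈ range L, (1 - (X : PowerSeries ℚ) ^ (2 * k + 1)))⁻¹) := by
  rw [inv_odd]
  exact (NN_prod _ _ (fun k _ => NN_one.add (NN_X_pow _))).mul
    (NN_prod _ _ (fun k _ => NN_inv _ (by omega)))

/-- **Main theorem.** For every positive integer `L`, every coefficient of the left-hand side is
at least the corresponding coefficient of the right-hand side. -/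
theorem result (L : ℕ) (hL : 1 ≤ L) (n : ℕ) :
    coeff n (rhs L) ≤ coeff n (lhs L) := by
  rw [← sub_nonneg, ← map_sub]
  revert n
  change NN (lhs L - rhs L)
  rcases Nat.lt_or_ge L 4 with h | h
  · have g1 : gauss 1 ((L : ℤ) - 2) 2 = 0 := by
      unfold gauss; rw [if_neg (by omega)]
    have g2 : gauss 2 ((L : ℤ) - 2) 2 = 0 := by
      unfold gauss; rw [if_neg (by omega)]
    unfold lhs rhs
    rw [g1, g2]
    have e1 : 2 * L - 2 = 2 * (L - 1) := by omega
    rw [e1, mul_zero, mul_zero, zero_mul, add_zero, sub_zero]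
    exact (NN_inv_odd L).mul (NN_geom 2 (L - 1) (by norm_num))
  · obtain ⟨k, rfl⟩ : ∃ k, L = k + 4 := ⟨L - 4, by omega⟩
    unfold lhs rhs
    have e0 : ((k + 4 : ℕ) : ℤ) - 2 = (k : ℤ) + 2 := by push_cast; ring
    have e1 : 2 * (k + 4) - 2 = 2 * (k + 3) := by omega
    have e2 : k + 4 - 4 = k := by omega
    rw [e0, e1, e2, gauss_two 1 k (le_refl 1), gauss_two 2 k (by norm_num), inv_odd]
    simp only [one_mul]
    have e3 : (∏ j ∈ range (k + 4), (1 + (X : PowerSeries ℚ) ^ (j + 1))) =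
        (1 + X) * (1 + X ^ 2) * (∏ j ∈ range k, (1 + (X : PowerSeries ℚ) ^ (3 + j))) *
          ((1 + X ^ (k + 3)) * (1 + X ^ (k + 4))) := by
      rw [Finset.prod_range_succ, Finset.prod_range_succ, Finset.prod_range_succ',
        Finset.prod_range_succ']
      have : ∀ j, j + 1 + 1 + 1 = 3 + j := fun j => by ring
      simp_rw [this]
      ring
    rw [e3]
    set Q := ∏ j ∈ range k, (1 + (X : PowerSeries ℚ) ^ (3 + j)) with hQ
    set F := ∏ j ∈ range (k + 4), (1 - (X : PowerSeries ℚ) ^ (k + 4 + j + 1))⁻¹ with hF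
    have hI := inner k
    set M := ((1 - X ^ (2 * (k + 3))) * (1 - X ^ 2)⁻¹ + X ^ 3 *
      ((1 - (X : PowerSeries ℚ) ^ (2 * (k + 1))) * (1 - X ^ (2 * (k + 2))) *
      ((1 - X ^ 2)⁻¹ * (1 - X ^ (2 * 2))⁻¹))) with hM
    set G := (1 - (X : PowerSeries ℚ) ^ (k + 1)) * (1 - X ^ (k + 2)) *
      ((1 - X ^ 1)⁻¹ * (1 - X ^ 2)⁻¹) with hG
    have hMN : NN M := (NN_geom 2 (k + 3) (by norm_num)).add ((NN_X_pow 3).mul (NN_G2 k))
    have hQN : NN Q := NN_prod _ _ (fun j _ => NN_one.add (NN_X_pow _))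
    have hFN : NN F := NN_prod _ _ (fun j _ => NN_inv _ (by omega))
    have hFc : coeff 0 F = 1 := by
      rw [coeff_zero_eq_constantCoeff_apply, hF, map_prod]
      apply Finset.prod_eq_one
      intro j _
      rw [PowerSeries.constantCoeff_inv]
      simp
    have hE : NN ((1 + (X : PowerSeries ℚ) ^ (k + 3)) * (1 + X ^ (k + 4)) * F - 1) := by
      apply NN_sub_one
      · exact ((NN_one.add (NN_X_pow _)).mul (NN_one.add (NN_X_pow _))).mul hFN
      · rw [coeff_zero_eq_constantCoeff_apply] at hFc ⊢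
        rw [map_mul, map_mul, hFc]
        simp
    have hfin : (1 + X) * (1 + X ^ 2) * Q * ((1 + X ^ (k + 3)) * (1 + X ^ (k + 4))) * F * M -
        X * G * Q =
        Q * (((1 + X) * (1 + X ^ 2) * M) * ((1 + X ^ (k + 3)) * (1 + X ^ (k + 4)) * F - 1) +
          ((1 + X) * (1 + X ^ 2) * M - X * G)) := by ring
    rw [hfin]
    refine hQN.mul (NN.add (NN.mul (NN.mul (NN.mul (NN_one.add ?_) (NN_one.add (NN_X_pow 2))) hMN)
      hE) hI)
    simpa using NN_X_pow 1

end Pool.Agent.Results.MP_acbfbf_co.CoefficientwiseInequality
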